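import Pool.Agent.J4.H9.SA.Main

/-!
# Varieties of solvable alternative algebras in characteristic three that are not finitely based

Over every field `F` of characteristic three there is a variety of (commutative) alternative
algebras, solvable of index three, that is not defined by any finite set of identities.

Idea: for an even number `m` let `V` be a space of dimension `m` with exterior algebra `L`, and let
`τ` be the top form of `L`. The space `V ⊕ L ⊕ L' ⊕ F` (with a copy `L'` of `L`) is a commutative
alternative algebra under `x v = x ∧ v` in `L`, `x y = x ∧ y - (x odd) ∧ (y odd)` in `L'`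
for `x, y` in `L`, `μ v = ± μ ∧ v` in `L'` (the sign is the parity of `μ`), and `x μ = τ (μ ∧ x)`.
Its cubic form `(x x) x` has the polar form `τ (ev (x) ^ 3 ∧ …)`, and the third power of an even
element of `L` is a scalar in characteristic three. A combination of four words gives identities
`GG` that detect exactly the scalar part of `x`, so that they are independent.
-/

namespace Pool.Agent.Results.MP_a43909_al.SolvableAlternativeCharThree

open Pool.Agent.H739SJ Pool.Agent.J4.H9.SA

universe u

theorem result (F : Type u) [Field F] [CharP F 3] :
    ∃ S : Set (FreeNonUnitalNonAssocAlgebra F ℕ),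
      (∀ (B : Type u) [NonUnitalNonAssocRing B] [Module F B] [IsScalarTower F B B]
        [SMulCommClass F B B], InVariety F S B →
          (∀ x y : B, x * y = y * x) ∧ IsAlternative B ∧ derivedSeries F B 3 = ⊥) ∧
      ∀ T : Set (FreeNonUnitalNonAssocAlgebra F ℕ), T.Finite →
        ¬ ∀ (B : Type u) [NonUnitalNonAssocRing B] [Module F B] [IsScalarTower F B B]
          [SMulCommClass F B B], InVariety F S B ↔ InVariety F T B :=
  main F

end Pool.Agent.Results.MP_a43909_al.SolvableAlternativeCharThree
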